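import Mathlib

namespace Pool.Agent.Results.MP_f92f5b_al.TrivialIntersection

/-- The gaps of a submonoid of `ℕ`. -/
def gaps (S : AddSubmonoid ℕ) : Set ℕ := {n | n ∉ S}

/-- The genus `g(S)`. -/
noncomputable def genus (S : AddSubmonoid ℕ) : ℕ := (gaps S).ncard

/-- The conductor: the least `c` with `n ∈ S` for all `n ≥ c`; this is `F(S) + 1`. -/
noncomputable def cond (S : AddSubmonoid ℕ) : ℕ := sInf {c | ∀ n, c ≤ n → n ∈ S}

/-- A Frobenius variety: a nonempty family of numerical semigroups (submonoids with finitely many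
gaps) closed under intersections and with `S ∪ {F(S)}` in it for each member `S ≠ ℕ`. -/
def IsFrobeniusVariety (V : Set (AddSubmonoid ℕ)) : Prop :=
  V.Nonempty ∧ (∀ S ∈ V, (gaps S).Finite) ∧ (∀ S ∈ V, ∀ T ∈ V, S ⊓ T ∈ V) ∧
    ∀ S ∈ V, S ≠ ⊤ → ∃ T ∈ V, (T : Set ℕ) = (S : Set ℕ) ∪ {cond S - 1}

/-- `M` is a `V`-monoid: an intersection of members of `V`. -/
def IsVMonoid (V : Set (AddSubmonoid ℕ)) (M : AddSubmonoid ℕ) : Prop :=
  ∃ 𝒯 : Set (AddSubmonoid ℕ), 𝒯 ⊆ V ∧ M = sInf 𝒯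

/-- `V(A)`: the intersection of all `V`-monoids containing `A`. -/
def VGen (V : Set (AddSubmonoid ℕ)) (A : Set ℕ) : AddSubmonoid ℕ :=
  sInf {M | IsVMonoid V M ∧ A ⊆ M}

/-- `A` is a minimal `V`-system of generators of `S`. -/
def IsMinSystem (V : Set (AddSubmonoid ℕ)) (A : Finset ℕ) (S : AddSubmonoid ℕ) : Prop :=
  VGen V A = S ∧ ∀ B : Finset ℕ, B ⊂ A → VGen V B ≠ S

/-- The Wilf-type inequality `e_V(S) g(S) ≤ (e_V(S) - 1) (F(S) + 1)` for all `S ∈ V`, where
`e_V(S)` is the number of elements of the minimal `V`-system of generators of `S`. -/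
def WilfType (V : Set (AddSubmonoid ℕ)) : Prop :=
  ∀ S ∈ V, ∀ A : Finset ℕ, IsMinSystem V A S →
    (A.card : ℤ) * genus S ≤ ((A.card : ℤ) - 1) * cond S

/-- **Main result.** If a Frobenius variety `V ≠ {ℕ}` satisfies the Wilf-type inequality, then
the intersection of all its members is `{0}`. -/
theorem result (V : Set (AddSubmonoid ℕ)) (hV : IsFrobeniusVariety V) (hW : WilfType V) :
    V = {⊤} ∨ sInf V = ⊥ := by
  classical
  obtain ⟨hne, hnum, hinter, -⟩ := hV
  by_contra hcon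
  push Not at hcon
  obtain ⟨hV1, hV2⟩ := hcon
  obtain ⟨m, hm, hm0⟩ : ∃ m : ℕ, m ∈ sInf V ∧ m ≠ 0 := by
    by_contra h
    push Not at h
    exact hV2 ((AddSubmonoid.eq_bot_iff_forall _).2 (fun x hx => h x hx))
  obtain ⟨S', hS'V, hS'⟩ : ∃ S' ∈ V, S' ≠ ⊤ := by
    by_contra h
    push Not at h
    apply hV1
    obtain ⟨T, hT⟩ := hne
    apply Set.eq_singleton_iff_unique_mem.2
    exact ⟨by rw [← h T hT]; exact hT, h⟩
  have hmT : ∀ T ∈ V, m ∈ T := fun T hT => (AddSubmonoid.mem_sInf.1 hm) T hT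
  -- a large element of `S'`
  obtain ⟨c, hc⟩ : ∃ c, ∀ n, c ≤ n → n ∈ S' := by
    obtain ⟨c, hc⟩ := (hnum S' hS'V).bddAbove
    refine ⟨c + 1, fun n hn => ?_⟩
    by_contra h
    have := hc h
    omega
  obtain ⟨b, hbdef⟩ : ∃ b, b = c * m + 1 := ⟨_, rfl⟩
  have hcb : c ≤ b := by
    rw [hbdef]
    nlinarith [Nat.pos_of_ne_zero hm0]
  have hbS' : b ∈ S' := hc b hcb
  obtain ⟨S, hS⟩ : ∃ S, S = VGen V {b} := ⟨_, rfl⟩
  have hbS : b ∈ S := by
    rw [hS]
    exact AddSubmonoid.mem_sInf.2 (fun M hM => hM.2 rfl)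
  have hle : ∀ T ∈ V, b ∈ T → S ≤ T := by
    intro T hT hb
    rw [hS]
    apply sInf_le
    exact ⟨⟨{T}, by simpa using hT, by simp⟩, by simpa using hb⟩
  have hsep : ∀ n, n ∉ S → ∃ T ∈ V, b ∈ T ∧ n ∉ T := by
    intro n hn
    rw [hS] at hn
    unfold VGen at hn
    rw [AddSubmonoid.mem_sInf] at hn
    push Not at hn
    obtain ⟨M, ⟨⟨𝒯, h𝒯, rfl⟩, hbM⟩, hnM⟩ := hn
    rw [AddSubmonoid.mem_sInf] at hnM
    push Not at hnM
    obtain ⟨T, hT, hnT⟩ := hnM
    have hbM' : b ∈ sInf 𝒯 := hbM rfl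
    exact ⟨T, h𝒯 hT, AddSubmonoid.mem_sInf.1 hbM' T hT, hnT⟩
  have hmS : m ∈ S := by
    by_contra h
    obtain ⟨T, hT, _, h2⟩ := hsep m h
    exact h2 (hmT T hT)
  have hlarge : ∀ n, m * b ≤ n → n ∈ S := by
    intro n hn
    have hmpos : 0 < m := Nat.pos_of_ne_zero hm0
    have h1 : b ≤ n / m := (Nat.le_div_iff_mul_le hmpos).2 (by rwa [mul_comm] at hn)
    have h2 : n % m * c ≤ n / m := by
      have h3 : n % m * c ≤ m * c := Nat.mul_le_mul_right c (Nat.mod_lt n hmpos).le
      have h4 : m * c < b := by rw [hbdef, mul_comm]; omega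
      omega
    have h5 : n = (n % m) • b + (n / m - n % m * c) • m := by
      simp only [smul_eq_mul]
      rw [Nat.sub_mul, hbdef]
      have h6 : n % m * c * m ≤ n / m * m := Nat.mul_le_mul_right m h2
      have h7 := Nat.div_add_mod' n m
      have h8 : n % m * (c * m + 1) = n % m * c * m + n % m := by ring
      rw [h8]
      omega
    rw [h5]
    exact S.add_mem (S.nsmul_mem hbS _) (S.nsmul_mem hmS _)
  have hfin : (gaps S).Finite := by
    refine (Set.finite_lt_nat (m * b)).subset ?_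
    intro n hn
    by_contra h
    exact hn (hlarge n (not_lt.1 h))
  have hSV : S ∈ V := by
    have key : ∀ s : Finset ℕ, (∀ n ∈ s, n ∉ S) → ∃ T ∈ V, b ∈ T ∧ ∀ n ∈ s, n ∉ T := by
      intro s
      induction s using Finset.induction_on with
      | empty => intro _; exact ⟨S', hS'V, hbS', by simp⟩
      | insert a s _ ih =>
        intro h
        obtain ⟨T, hT, hbT, hsT⟩ := ih (fun n hn => h n (Finset.mem_insert_of_mem hn))
        obtain ⟨T', hT', hbT', haT'⟩ := hsep a (h a (Finset.mem_insert_self a s))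
        refine ⟨T ⊓ T', hinter T hT T' hT', ⟨hbT, hbT'⟩, ?_⟩
        intro n hn hnT
        rcases Finset.mem_insert.1 hn with rfl | hn
        · exact haT' hnT.2
        · exact hsT n hn hnT.1
    obtain ⟨T, hT, hbT, hsT⟩ := key hfin.toFinset (fun n hn => by simpa [gaps] using hn)
    have : S = T := by
      apply le_antisymm (hle T hT hbT)
      intro n hn
      by_contra h
      exact hsT n (by simpa [gaps] using h) hn
    rw [this]
    exact hT
  have hSne : S ≠ ⊤ := by
    intro h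
    apply hS'
    rw [← top_le_iff, ← h]
    exact hle S' hS'V hbS'
  have hgen : 1 ≤ genus S := by
    have hne : (gaps S).Nonempty := by
      by_contra h
      apply hSne
      rw [← top_le_iff]
      intro n _
      by_contra hn
      exact h ⟨n, hn⟩
    exact (Set.ncard_pos hfin).2 hne
  have hcond : 1 ≤ cond S := by
    by_contra h
    have h0 : cond S = 0 := by omega
    have h1 : cond S ∈ {c | ∀ n, c ≤ n → n ∈ S} := Nat.sInf_mem ⟨m * b, hlarge⟩
    rw [h0] at h1
    apply hSne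
    rw [← top_le_iff]
    intro n _
    exact h1 n (Nat.zero_le n)
  by_cases h0 : VGen V ((∅ : Finset ℕ) : Set ℕ) = S
  · have h1 := hW S hSV ∅ ⟨h0, fun B hB => absurd hB (Finset.not_ssubset_empty B)⟩
    simp only [Finset.card_empty, Nat.cast_zero, zero_mul, zero_sub, neg_mul, one_mul] at h1
    omega
  · have h1 := hW S hSV {b} ⟨by rw [hS]; simp, fun B hB => by
      have : B = ∅ := Finset.ssubset_singleton_iff.1 hB
      rw [this]; exact h0⟩
    simp only [Finset.card_singleton, Nat.cast_one, one_mul, sub_self, zero_mul] at h1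
    omega

end Pool.Agent.Results.MP_f92f5b_al.TrivialIntersection
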